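import Pool.Agent.Helper32.BF2.Main

/-! Row B_UNSWAP: a linear literal sheet of `R` over `(t, y, Z)` is a linear literal sheet of `z` over `(t, y, R)`. -/

set_option autoImplicit false

namespace Pool.Agent.Helper32.UNSW

open Finset Filter Topology Pool.Agent.Helper69.RK Pool.Agent.Helper31.EC Pool.Agent.Helper82.TP
open Pool.Agent.Helper31.NSB Pool.Agent.Helper32.BF2
open Pool.Agent.Helper57.TA (sc)
open Pool.Agent.Helper3.LF (Mon)

noncomputable section

open Sp QS

/-- values of polynomials of degree one -/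
theorem eval_deg_one {A : Type*} [CommRing A] (g : MvPolynomial (Fin 3) A) (h : g.totalDegree ≤ 1) (x : Fin 3 → A) :
    MvPolynomial.eval x g = g.coeff 0 + g.coeff (Finsupp.single 0 1) * x 0 + g.coeff (Finsupp.single 1 1) * x 1 +
      g.coeff (Finsupp.single 2 1) * x 2 := by
  classical
  have hinj : Function.Injective (fun i : Fin 3 => (Finsupp.single i 1 : Fin 3 →₀ ℕ)) := by
    intro i j hij
    exact Finsupp.single_left_injective one_ne_zero hij
  have hsub : g.support ⊆ insert (0 : Fin 3 →₀ ℕ) (Finset.univ.image fun i : Fin 3 => (Finsupp.single i 1 : Fin 3 →₀ ℕ)) := by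
    intro s hs
    have h3 : (s.sum fun _ e => e) ≤ 1 := (MvPolynomial.le_totalDegree hs).trans h
    rw [Finsupp.sum_fintype _ _ (fun _ => rfl), Fin.sum_univ_three] at h3
    rw [Finset.mem_insert, Finset.mem_image]
    by_cases h0 : s 0 = 0
    · by_cases h1 : s 1 = 0
      · by_cases h2 : s 2 = 0
        · left
          ext i
          fin_cases i <;> simp [h0, h1, h2]
        · right
          refine ⟨2, Finset.mem_univ _, ?_⟩
          ext i
          fin_cases i <;> simp [h0, h1] <;> omega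
      · right
        refine ⟨1, Finset.mem_univ _, ?_⟩
        ext i
        fin_cases i <;> simp <;> omega
    · right
      refine ⟨0, Finset.mem_univ _, ?_⟩
      ext i
      fin_cases i <;> simp <;> omega
  rw [MvPolynomial.eval_eq', Finset.sum_subset hsub (fun s _ hs => by
    rw [MvPolynomial.notMem_support_iff.1 hs, zero_mul])]
  rw [Finset.sum_insert, Finset.sum_image (fun a _ b _ hab => hinj hab), Fin.sum_univ_three]
  · simp only [Fin.prod_univ_three, Finsupp.single_apply]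
    simp
    ring
  · rw [Finset.mem_image]
    rintro ⟨i, _, hi⟩
    have := DFunLike.congr_fun hi i
    simp at this

theorem cpol_deg {A : Type*} [CommRing A] {N D : ℕ} (c : Mon N D → A) : (cpol c).totalDegree ≤ D := by
  unfold cpol
  refine MvPolynomial.totalDegree_finsetSum_le fun a _ => ?_
  exact (MvPolynomial.totalDegree_monomial_le _ _).trans a.ex_sum

variable {S : Sp}

/-- ROW B_UNSWAP -/
theorem st_unswap : ST_UNSWAP := by
  intro S H f w1 w ρ' Sc hc hww _ s hs v ho
  obtain ⟨hv, _, h1, E, hE, cA, cB, gg, lA, lB, hAB, hbx, hsh⟩ := ho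
  obtain ⟨t, ht⟩ : ∃ t, t = gg 0 := ⟨_, rfl⟩
  obtain ⟨y, hy⟩ : ∃ y, y = gg 1 := ⟨_, rfl⟩
  obtain ⟨Z, hZ⟩ : ∃ Z, Z = gg 2 := ⟨_, rfl⟩
  have egg : gg = ![t, y, Z] := by
    funext i
    fin_cases i
    · exact ht.symm
    · exact hy.symm
    · exact hZ.symm
  have n0 := hc.nn s hs
  have w1' := hc.hw1
  have n2 : 0 ≤ w1 * s := mul_nonneg (by linarith) n0
  have n3 : w * s ≤ w1 * s := mul_le_mul_of_nonneg_right hww.le n0
  have ev : w1 * (s - s) + v = v := by ring
  have bt : H.t - f.t0 s = sc S s * t := by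
    rw [ht]
    exact hbx.1
  have by' : H.y - f.y0 s = sc S s * y := by
    rw [hy]
    exact hbx.2.1
  have bZ : H.z - ((f.z0 s + f.c s * f.r0 s) + (f.k0 s + f.c s * f.rt s) * H.t +
      (f.k1 s + f.c s * f.ry s) * H.y) = sc S (w * s) * Z := by
    rw [hZ]
    exact hbx.2.2
  obtain ⟨R, bR⟩ : ∃ R : QS S, H.R - (f.r0 s + f.rt s * H.t + f.ry s * H.y) = sc S (w1 * s) * R :=
    exists_div' n2 (by linarith) (hc.frR s hs)
  have hdegB := cpol_deg cB
  have hAB' : ∀ m, (cpol cA).coeff m - (cpol cB).coeff m ∈ IE E hE v := cpol_congr fun a => by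
    have e := hAB a
    rw [ev] at e
    exact mem_IE.mpr e
  have hsh' : R - MvPolynomial.eval ![t, y, Z] (cpol cB) ∈ IE E hE v := by
    rw [mem_IE]
    have e : H.R - (f.r0 s + f.rt s * H.t + f.ry s * H.y + 0 * H.z) -
        sc S (w1 * s) * ∑ a, cB a * ∏ i, gg i ^ (a.1 i : ℕ) =
        sc S (w1 * s) * (R - MvPolynomial.eval ![t, y, Z] (cpol cB)) := by
      rw [cpol_eval, mul_sub, ← bR, egg]
      ring
    have e1 : QS.rest E hE (H.R - (f.r0 s + f.rt s * H.t + f.ry s * H.y + 0 * H.z) -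
        sc S (w1 * s) * ∑ a, cB a * ∏ i, gg i ^ (a.1 i : ℕ)) ∈ Id (S.rest E) (w1 * s + v) := hsh
    rw [e, map_mul, rest_sc, Helper57.TA.sc_mul_mem_iff n2 h1] at e1
    exact Id_anti (by linarith) e1
  have lA' : ∀ m, Lit (VAs H s) ((cpol cA).coeff m) := fun m => cpol_mem (B := LR (VAs H s)) (fun a => lA a) m
  have lB' : ∀ m, Lit (VBs H s) ((cpol cB).coeff m) := fun m => cpol_mem (B := LR (VBs H s)) (fun a => lB a) m
  rw [eval_deg_one _ hdegB] at hsh'
  have hs1 : R - ((cpol cB).coeff 0 + (cpol cB).coeff (Finsupp.single 0 1) * t +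
      (cpol cB).coeff (Finsupp.single 1 1) * y + (cpol cB).coeff (Finsupp.single 2 1) * Z) ∈ IE E hE v := hsh'
  clear hsh' hsh hdegB
  have c0 := hAB' 0
  have c1 := hAB' (Finsupp.single 0 1)
  have c2 := hAB' (Finsupp.single 1 1)
  have c3 := hAB' (Finsupp.single 2 1)
  have p0 := lA' 0
  have p1 := lA' (Finsupp.single 0 1)
  have p2 := lA' (Finsupp.single 1 1)
  have p3 := lA' (Finsupp.single 2 1)
  have r0 := lB' 0
  have r1 := lB' (Finsupp.single 0 1)
  have r2 := lB' (Finsupp.single 1 1)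
  have r3 := lB' (Finsupp.single 2 1)
  generalize (cpol cA).coeff 0 = a0 at c0 p0
  generalize (cpol cA).coeff (Finsupp.single 0 1) = a1 at c1 p1
  generalize (cpol cA).coeff (Finsupp.single 1 1) = a2 at c2 p2
  generalize (cpol cA).coeff (Finsupp.single 2 1) = a3 at c3 p3
  generalize (cpol cB).coeff 0 = b0 at c0 r0 hs1
  generalize (cpol cB).coeff (Finsupp.single 0 1) = b1 at c1 r1 hs1
  generalize (cpol cB).coeff (Finsupp.single 1 1) = b2 at c2 r2 hs1
  generalize (cpol cB).coeff (Finsupp.single 2 1) = b3 at c3 r3 hs1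
  -- the coefficient of `Z` is not small on any event
  have hcon : ∀ (E1 : ∀ k, (S.F k).Ω → Prop) (hE1 : 0 < ul (S.pr E1)) (b : ℝ), 0 < b → (∀ k ω, E1 k ω → E k ω) →
      b3 ∈ IE E1 hE1 b → False := by
    intro E1 hE1 b hb hsub hsm
    obtain ⟨r, hr⟩ : ∃ r, r = min b v := ⟨_, rfl⟩
    have q0 : 0 < r := by rw [hr]; exact lt_min hb hv
    have q1 : r ≤ v := by rw [hr]; exact min_le_right _ _
    have q2 : r ≤ b := by rw [hr]; exact min_le_left _ _
    have z1 : Lit (VAs H s) (0 : QS S) := (LR (VAs H s)).zero_mem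
    have z2 : Lit (VBs H s) (0 : QS S) := (LR (VBs H s)).zero_mem
    have z3 : (0 : QS S) - 0 ∈ IE E hE v := by
      rw [sub_self]
      exact Ideal.zero_mem _
    have d3 : ∀ m, restL E1 hE1 (dg ((lin b0 b1 b2 0).coeff m) r) ≤ restL E1 hE1 (H.κ s) := by
      intro m
      have e := hc.agr s hs s hs le_rfl E1 hE1 ((lin a0 a1 a2 0).coeff m) ((lin b0 b1 b2 0).coeff m) r q0 (by linarith)
        (lin_mem (A := LR (VAs H s)) p0 p1 p2 z1 m) (lin_mem (A := LR (VBs H s)) r0 r1 r2 z2 m)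
        (mem_IE.mp (IE_anti q1 (IE_sub hE hE1 hsub v (lin_congr c0 c1 c2 z3 m))))
      exact e
    refine not_known hc hs E1 hE1 le_rfl q0 (by linarith) bt by' bR (z := 0) (z0 := 0) ?_ (lin b0 b1 b2 0) d3 ?_
    · rw [dg_of_mem_Id (r := 1) (Ideal.zero_mem _) le_rfl le_rfl]
      exact _root_.bot_le
    · rw [← mem_IE, lin_eval]
      have e : R - (b0 + b1 * (![t, y, 0] : Fin 3 → QS S) 0 + b2 * (![t, y, 0] : Fin 3 → QS S) 1 +
          0 * (![t, y, 0] : Fin 3 → QS S) 2) = (R - (b0 + b1 * t + b2 * y + b3 * Z)) + b3 * Z := by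
        show R - (b0 + b1 * t + b2 * y + 0 * 0) = _
        ring
      rw [e]
      exact (IE E1 hE1 r).add_mem (IE_anti q1 (IE_sub hE hE1 hsub v hs1)) ((IE E1 hE1 r).mul_mem_right _ (IE_anti q2 hsm))
  have uB : IsUnit (QS.rest E hE b3) := by
    rcases unit_or_small E hE b3 with h | ⟨b, E1, hE1, hb, hsub, hsm⟩
    · exact h
    · exact (hcon E1 hE1 b hb hsub (mem_IE.mpr hsm)).elim
  have uA : IsUnit (QS.rest E hE a3) := by
    rcases unit_or_small E hE a3 with h | ⟨b, E1, hE1, hb, hsub, hsm⟩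
    · exact h
    · refine (hcon E1 hE1 (min b v) (lt_min hb hv) hsub ?_).elim
      have e : b3 = a3 - (a3 - b3) := by ring
      rw [e]
      exact (IE E1 hE1 (min b v)).sub_mem (IE_anti (min_le_left _ _) (mem_IE.mpr hsm))
        (IE_anti (min_le_right _ _) (IE_sub hE hE1 hsub v c3))
  obtain ⟨a, la, ha⟩ := lit_inv E hE p3 uA
  obtain ⟨b, lb, hb⟩ := lit_inv E hE r3 uB
  have ia : 1 - a * a3 ∈ IE E hE v := by
    rw [mem_IE, map_sub, map_mul, ha, map_one, sub_self]
    exact Ideal.zero_mem _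
  have ib : 1 - b * b3 ∈ IE E hE v := by
    rw [mem_IE, map_sub, map_mul, hb, map_one, sub_self]
    exact Ideal.zero_mem _
  have hab : a - b ∈ IE E hE v := inv_congr_mod _ c3 ia ib
  refine ⟨v, finish hc hww.le hs hs le_rfl hv (by linarith) (show w * (s - s) + v ≤ v by linarith) E hE bt by' bR bZ
    (a := ![-(a * a0), -(a * a1), -(a * a2), a]) (b := ![-(b * b0), -(b * b1), -(b * b2), b]) ?_ ?_ ?_ ?_⟩
  · intro i
    fin_cases i
    · exact (LR (VAs H s)).neg_mem ((LR (VAs H s)).mul_mem la p0)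
    · exact (LR (VAs H s)).neg_mem ((LR (VAs H s)).mul_mem la p1)
    · exact (LR (VAs H s)).neg_mem ((LR (VAs H s)).mul_mem la p2)
    · exact la
  · intro i
    fin_cases i
    · exact (LR (VBs H s)).neg_mem ((LR (VBs H s)).mul_mem lb r0)
    · exact (LR (VBs H s)).neg_mem ((LR (VBs H s)).mul_mem lb r1)
    · exact (LR (VBs H s)).neg_mem ((LR (VBs H s)).mul_mem lb r2)
    · exact lb
  · intro i
    fin_cases i
    · exact neg_congr_mod _ (mul_congr_mod _ hab c0)
    · exact neg_congr_mod _ (mul_congr_mod _ hab c1)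
    · exact neg_congr_mod _ (mul_congr_mod _ hab c2)
    · exact hab
  · have e : Z - (-(b * b0) + -(b * b1) * t + -(b * b2) * y + b * R) =
        -b * (R - (b0 + b1 * t + b2 * y + b3 * Z)) + (1 - b * b3) * Z := by ring
    show Z - (-(b * b0) + -(b * b1) * t + -(b * b2) * y + b * R) ∈ IE E hE v
    rw [e]
    exact (IE E hE v).add_mem ((IE E hE v).mul_mem_left _ hs1) ((IE E hE v).mul_mem_right _ ib)

end

end Pool.Agent.Helper32.UNSW
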